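import Mathlib

namespace Pool.Agent.Results.MP_ba4d4a_gt.Counter
open EuclideanGeometry Real

/-- Curvature (angle deficit) at the vertex `v` of the tetrahedron with vertices `v x y z`. -/
noncomputable def curv (v x y z : EuclideanSpace ℝ (Fin 3)) : ℝ :=
  2 * π - (∠ x v y + ∠ y v z + ∠ z v x)

lemma ang (p q r : EuclideanSpace ℝ (Fin 3)) :
    ∠ p q r = arccos (((p 0 - q 0) * (r 0 - q 0) + (p 1 - q 1) * (r 1 - q 1) + (p 2 - q 2) * (r 2 - q 2))
      / √(((p 0 - q 0) ^ 2 + (p 1 - q 1) ^ 2 + (p 2 - q 2) ^ 2) *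
        ((r 0 - q 0) ^ 2 + (r 1 - q 1) ^ 2 + (r 2 - q 2) ^ 2))) := by
  unfold EuclideanGeometry.angle InnerProductGeometry.angle
  rw [Real.sqrt_mul (by positivity), EuclideanSpace.norm_eq, EuclideanSpace.norm_eq]
  simp only [vsub_eq_sub, PiLp.inner_apply, Fin.sum_univ_three, PiLp.sub_apply, Real.norm_eq_abs, sq_abs,
    RCLike.inner_apply, conj_trivial]
  congr 2; ring

lemma dst (p q : EuclideanSpace ℝ (Fin 3)) :
    dist p q = √((p 0 - q 0) ^ 2 + (p 1 - q 1) ^ 2 + (p 2 - q 2) ^ 2) := by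
  rw [EuclideanSpace.dist_eq]; simp [Fin.sum_univ_three, Real.dist_eq, sq_abs]

lemma cmp {a b A B : ℝ} (ha : 0 ≤ a) (hb : 0 ≤ b) (hA : 0 < A) (hB : 0 < B) (h : b ^ 2 * A < a ^ 2 * B)
    (h1 : a ^ 2 ≤ A) : arccos (a / √A) < arccos (b / √B) := by
  have sA := Real.sqrt_pos.2 hA
  have sB := Real.sqrt_pos.2 hB
  apply Real.arccos_lt_arccos
  · exact le_trans (by norm_num) (div_nonneg hb sB.le)
  · rw [div_lt_div_iff₀ sB sA]
    apply lt_of_pow_lt_pow_left₀ 2 (by positivity)
    rw [mul_pow, mul_pow, Real.sq_sqrt hA.le, Real.sq_sqrt hB.le]; exact h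
  · rw [div_le_one sA]; exact Real.le_sqrt_of_sq_le h1

theorem result : ∃ a b c d : EuclideanSpace ℝ (Fin 3), AffineIndependent ℝ ![a, b, c, d] ∧
    (dist a c < dist a b ∧ dist a d < dist a b ∧ dist b c < dist a b ∧ dist b d < dist a b ∧
      dist c d < dist a b) ∧
    curv a b c d < curv c a b d ∧ curv b a c d < curv c a b d := by
  refine ⟨!₂[-5, 0, 0], !₂[5, 0, 0], !₂[0, 8, 0], !₂[0, -1, 4], ?_, ?_, ?_⟩
  · rw [affineIndependent_iff_linearIndependent_vsub ℝ _ (0 : Fin 4),
      ← linearIndependent_equiv (finSuccAboveEquiv (0 : Fin 4)), Fintype.linearIndependent_iff]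
    intro g hg
    have h0 := congrArg (fun v : EuclideanSpace ℝ (Fin 3) => v 0) hg
    have h1 := congrArg (fun v : EuclideanSpace ℝ (Fin 3) => v 1) hg
    have h2 := congrArg (fun v : EuclideanSpace ℝ (Fin 3) => v 2) hg
    simp [Fin.sum_univ_three, finSuccAboveEquiv] at h0 h1 h2
    intro i; fin_cases i <;> simp <;> linarith
  · simp only [dst]
    refine ⟨?_, ?_, ?_, ?_, ?_⟩ <;> apply Real.sqrt_lt_sqrt (by positivity) <;> simp <;> norm_num
  · have e1 : arccos (39 / √7921) < arccos (17 / √3738) := by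
      apply cmp <;> norm_num
    have e2 : arccos (72 / √8633) < arccos (50 / √8900) := by
      apply cmp <;> norm_num
    have e3 : arccos (72 / √8633) < arccos (50 / √4200) := by
      apply cmp <;> norm_num
    unfold curv
    simp only [ang]
    simp only [Matrix.cons_val_zero, Matrix.cons_val_one, Matrix.cons_val_two, Matrix.head_cons,
      Matrix.tail_cons, Matrix.cons_val]
    norm_num only
    constructor <;> linarith

end Pool.Agent.Results.MP_ba4d4a_gt.Counter
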